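import Mathlib

/-!
# Polarisation with cube roots of unity (used in KKS-STAR)
-/

set_option autoImplicit false

open Complex Finset
open scoped ComplexConjugate

namespace Pool.Agent.W253.KKS

/-- a primitive cube root of unity -/
noncomputable def om : ℂ := Complex.exp (2 * Real.pi * I / 3)

theorem om_prim : IsPrimitiveRoot om 3 := by
  have := Complex.isPrimitiveRoot_exp 3 (by norm_num)
  simpa [om] using this

theorem om_sum : 1 + om + om ^ 2 = 0 := by
  have h := om_prim.geom_sum_eq_zero (by norm_num)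
  simpa [Finset.sum_range_succ] using h

theorem om_norm : ‖om‖ = 1 := om_prim.norm'_eq_one (by norm_num)

theorem om_conj : conj om = om ^ 2 := by
  have h1 : om * conj om = 1 := by
    rw [Complex.mul_conj, Complex.normSq_eq_norm_sq, om_norm]
    simp
  have h3 : om ^ 3 = 1 := om_prim.pow_eq_one
  have h0 : om ≠ 0 := by
    intro h
    rw [h] at h1
    simp at h1
  apply mul_left_cancel₀ h0
  rw [h1, ← h3]
  ring

/-- left phases -/
noncomputable def dd (m n : Fin 3) : Fin 3 → ℂ := ![om ^ (m : ℕ), 1, om ^ (n : ℕ)]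

/-- right phases -/
noncomputable def ee (p : Fin 3) : Fin 3 → ℂ := ![1, om ^ (p : ℕ), om ^ (2 * (p : ℕ))]

/-- a real symmetric unitary matrix -/
noncomputable def w0 (i j : Fin 3) : ℂ := if i = j then 1 / 3 else - 2 / 3

/-- the unitary matrices -/
noncomputable def ww (m n p : Fin 3) (i j : Fin 3) : ℂ := dd m n i * w0 i j * ee p j

/-- the multiplier -/
noncomputable def ph (m n : Fin 3) : ℂ := om ^ (n : ℕ) * conj (om ^ (m : ℕ))

theorem norm_dd (m n i : Fin 3) : ‖dd m n i‖ = 1 := by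
  fin_cases i <;> simp [dd, om_norm]

theorem norm_ee (p i : Fin 3) : ‖ee p i‖ = 1 := by
  fin_cases i <;> simp [ee, om_norm]

theorem norm_ph (m n : Fin 3) : ‖ph m n‖ = 1 := by
  simp [ph, om_norm]

theorem norm_ww (m n p i j : Fin 3) : ‖ww m n p i j‖ ≤ 1 := by
  rw [ww, norm_mul, norm_mul, norm_dd, norm_ee, one_mul, mul_one, w0]
  split_ifs
  · norm_num
  · rw [norm_div, norm_neg]; norm_num

theorem conj_mul_self_of_norm {z : ℂ} (hz : ‖z‖ = 1) : conj z * z = 1 := by
  rw [mul_comm, Complex.mul_conj, Complex.normSq_eq_norm_sq, hz]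
  simp

theorem w0_orth (i j : Fin 3) : ∑ k, w0 k i * w0 k j = if i = j then 1 else 0 := by
  fin_cases i <;> fin_cases j <;> simp [w0, Fin.sum_univ_three] <;> norm_num

theorem w0_symm (i j : Fin 3) : w0 i j = w0 j i := by
  simp only [w0, eq_comm]

theorem w0_conj (i j : Fin 3) : conj (w0 i j) = w0 i j := by
  have h1 : (1 / 3 : ℂ) = ((1 / 3 : ℝ) : ℂ) := by push_cast; rfl
  have h2 : (-2 / 3 : ℂ) = ((-2 / 3 : ℝ) : ℂ) := by push_cast; rfl
  simp only [w0]
  split_ifs
  · rw [h1, Complex.conj_ofReal]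
  · rw [h2, Complex.conj_ofReal]

theorem ww_orth1 (m n p i j : Fin 3) :
    ∑ k, conj (ww m n p k i) * ww m n p k j = if i = j then 1 else 0 := by
  have h : ∀ k, conj (ww m n p k i) * ww m n p k j =
      (conj (ee p i) * ee p j) * (w0 k i * w0 k j) := by
    intro k
    rw [ww, ww, map_mul, map_mul, w0_conj]
    have := conj_mul_self_of_norm (norm_dd m n k)
    linear_combination (w0 k i * conj (ee p i) * w0 k j * ee p j) * this
  rw [Finset.sum_congr rfl fun k _ => h k, ← Finset.mul_sum, w0_orth]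
  split_ifs with hij
  · subst hij
    rw [mul_one, conj_mul_self_of_norm (norm_ee p i)]
  · simp

theorem ww_orth2 (m n p i j : Fin 3) :
    ∑ k, ww m n p i k * conj (ww m n p j k) = if i = j then 1 else 0 := by
  have h : ∀ k, ww m n p i k * conj (ww m n p j k) =
      (dd m n i * conj (dd m n j)) * (w0 k i * w0 k j) := by
    intro k
    rw [ww, ww, map_mul, map_mul, w0_conj, w0_symm i k, w0_symm j k]
    have := conj_mul_self_of_norm (norm_ee p k)
    linear_combination (dd m n i * w0 k i * conj (dd m n j) * w0 k j) * this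
  rw [Finset.sum_congr rfl fun k _ => h k, ← Finset.mul_sum, w0_orth]
  split_ifs with hij
  · subst hij
    rw [mul_one, mul_comm, conj_mul_self_of_norm (norm_dd m n i)]
  · simp

theorem sum_dd (i l : Fin 3) :
    ∑ m, ∑ n, ph m n * (dd m n i * conj (dd m n l)) = if i = 0 ∧ l = 2 then 9 else 0 := by
  have h := om_sum
  have hc := om_conj
  fin_cases i <;> fin_cases l <;>
    simp [ph, dd, Fin.sum_univ_three, hc] <;> grind

theorem sum_ee (j k : Fin 3) :
    ∑ p, ee p j * conj (ee p k) = if j = k then 3 else 0 := by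
  have h := om_sum
  have hc := om_conj
  fin_cases j <;> fin_cases k <;>
    simp [ee, Fin.sum_univ_three, hc] <;> grind

theorem coef (i j k l : Fin 3) :
    ∑ m, ∑ n, ∑ p, ph m n * (ww m n p i j * conj (ww m n p l k)) =
      if i = 0 ∧ l = 2 ∧ j = k then 27 * (w0 i j * w0 l k) else 0 := by
  have h1 : ∀ m n p, ph m n * (ww m n p i j * conj (ww m n p l k)) =
      (ph m n * (dd m n i * conj (dd m n l))) * ((w0 i j * w0 l k) * (ee p j * conj (ee p k))) := by
    intro m n p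
    rw [ww, ww, map_mul, map_mul, w0_conj]
    ring
  simp only [h1, ← Finset.mul_sum, ← Finset.sum_mul]
  rw [sum_dd, sum_ee]
  by_cases c1 : i = 0 ∧ l = 2
  · by_cases c2 : j = k
    · rw [if_pos c1, if_pos c2, if_pos ⟨c1.1, c1.2, c2⟩]
      ring
    · have c3 : ¬ (i = 0 ∧ l = 2 ∧ j = k) := fun h => c2 h.2.2
      rw [if_pos c1, if_neg c2, if_neg c3]
      ring
  · have c3 : ¬ (i = 0 ∧ l = 2 ∧ j = k) := fun h => c1 ⟨h.1, h.2.1⟩
    rw [if_neg c1, if_neg c3]
    ring

/-- rotation of the indices -/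
def rot : (Fin 3 × Fin 3 × Fin 3 × Fin 3 × Fin 3 × Fin 3 × Fin 3) ≃
    (Fin 3 × Fin 3 × Fin 3 × Fin 3 × Fin 3 × Fin 3 × Fin 3) where
  toFun x := (x.2.2.2.1, x.2.2.2.2.1, x.2.2.2.2.2.1, x.2.2.2.2.2.2, x.1, x.2.1, x.2.2.1)
  invFun y := (y.2.2.2.2.1, y.2.2.2.2.2.1, y.2.2.2.2.2.2, y.1, y.2.1, y.2.2.1, y.2.2.2.1)
  left_inv _ := rfl
  right_inv _ := rfl

theorem core {H : Type} [NormedAddCommGroup H] [InnerProductSpace ℂ H]
    (Φ : Fin 3 → Fin 3 → Fin 3 → Fin 3 → H) (B : ℝ)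
    (hB : ∀ m n p : Fin 3, ‖∑ i, ∑ j, ∑ k, ∑ l,
      (ww m n p i j * conj (ww m n p l k)) • Φ i j k l‖ ≤ B) :
    ‖-Φ 0 0 0 2 + (2 : ℂ) • Φ 0 1 1 2 - Φ 0 2 2 2‖ ≤ 9 / 2 * B := by
  set S : H := ∑ m, ∑ n, ∑ p, ph m n • (∑ i, ∑ j, ∑ k, ∑ l,
      (ww m n p i j * conj (ww m n p l k)) • Φ i j k l) with hS
  have hS1 : ‖S‖ ≤ 27 * B := by
    have h1 : ∀ m n p : Fin 3, ‖ph m n • (∑ i, ∑ j, ∑ k, ∑ l,
      (ww m n p i j * conj (ww m n p l k)) • Φ i j k l)‖ ≤ B := by
      intro m n p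
      rw [norm_smul, norm_ph, one_mul]
      exact hB m n p
    calc ‖S‖ ≤ ∑ m : Fin 3, ∑ n : Fin 3, ∑ p : Fin 3, B := by
          rw [hS]
          refine (norm_sum_le _ _).trans (Finset.sum_le_sum fun m _ => ?_)
          refine (norm_sum_le _ _).trans (Finset.sum_le_sum fun n _ => ?_)
          refine (norm_sum_le _ _).trans (Finset.sum_le_sum fun p _ => ?_)
          exact h1 m n p
      _ = 27 * B := by simp; ring
  have hS2 : S = ∑ i, ∑ j, ∑ k, ∑ l, (∑ m, ∑ n, ∑ p, ph m n *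
      (ww m n p i j * conj (ww m n p l k))) • Φ i j k l := by
    rw [hS]
    simp only [← Fintype.sum_prod_type', Finset.smul_sum, Finset.sum_smul, smul_smul]
    exact Fintype.sum_equiv rot _ _ (fun x => rfl)
  have hS3 : S = (6 : ℂ) • (-Φ 0 0 0 2 + (2 : ℂ) • Φ 0 1 1 2 - Φ 0 2 2 2) := by
    rw [hS2]
    simp only [coef]
    simp [Fin.sum_univ_three, w0]
    module
  have h6 : ‖S‖ = 6 * ‖-Φ 0 0 0 2 + (2 : ℂ) • Φ 0 1 1 2 - Φ 0 2 2 2‖ := by
    rw [hS3, norm_smul]
    norm_num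
  rw [h6] at hS1
  linarith

end Pool.Agent.W253.KKS
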