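import Pool.Agent.W662.KKS.Stmts
import Pool.Agent.W253.KKS.Core

/-!
# Polarised invariance (KKS-STAR)
-/

set_option autoImplicit false
set_option linter.unusedSectionVars false
set_option linter.deprecated false

open scoped InnerProductSpace ComplexConjugate
open Pool.Agent.W662.KKS

namespace Pool.Agent.W253.KKS

variable {H : Type} [NormedAddCommGroup H] [InnerProductSpace ℂ H] [CompleteSpace H]

theorem mm_assoc (X Y Z : Mat H) : mm (mm X Y) Z = mm X (mm Y Z) := by
  funext i k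
  simp only [mm, Finset.sum_mul, Finset.mul_sum]
  rw [Finset.sum_comm]
  simp only [mul_assoc]

theorem ms_mm (X Y : Mat H) : ms (mm X Y) = mm (ms Y) (ms X) := by
  funext i k
  simp only [mm, ms, star_sum, star_mul]

theorem smul_mem' (M : VonNeumannAlgebra H) (z : ℂ) {x : H →L[ℂ] H} (hx : x ∈ M) :
    z • x ∈ M := M.toStarSubalgebra.smul_mem hx z

theorem norm_unitary_le {u : H →L[ℂ] H} (hu : u ∈ unitary (H →L[ℂ] H)) : ‖u‖ ≤ 1 := by
  have h1 : ‖u‖ * ‖u‖ ≤ 1 := by
    rw [← CStarRing.norm_star_mul_self, (Unitary.mem_iff.1 hu).1]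
    exact ContinuousLinearMap.norm_id_le
  nlinarith [norm_nonneg u]

/-- entries of a unitary matrix have norm at most one -/
theorem isU_norm_le {M : VonNeumannAlgebra H} {X : Mat H} (hX : IsU M X) (i k : Fin 3) :
    ‖X i k‖ ≤ 1 := by
  refine ContinuousLinearMap.opNorm_le_bound _ zero_le_one fun v => ?_
  have h1 : mm (ms X) X k k = 1 := by rw [hX.2.1]; simp [m1]
  have h2 : ∑ j, ‖X j k v‖ ^ 2 = ‖v‖ ^ 2 := by
    have h3 := congrArg (fun T : H →L[ℂ] H => (⟪v, T v⟫_ℂ).re) h1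
    simp only [mm, ms, ContinuousLinearMap.sum_apply, ContinuousLinearMap.mul_apply,
      inner_sum, Complex.re_sum, ContinuousLinearMap.star_eq_adjoint,
      ContinuousLinearMap.adjoint_inner_right, ContinuousLinearMap.one_apply] at h3
    have h4 : ∀ w : H, (⟪w, w⟫_ℂ).re = ‖w‖ ^ 2 := fun w => by
      rw [inner_self_eq_norm_sq_to_K]
      norm_cast
    simpa only [h4] using h3
  have h5 : ‖X i k v‖ ^ 2 ≤ ‖v‖ ^ 2 := by
    rw [← h2]
    exact Finset.single_le_sum (f := fun j => ‖X j k v‖ ^ 2) (fun j _ => sq_nonneg _)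
      (Finset.mem_univ i)
  rw [one_mul]
  exact (sq_le_sq₀ (norm_nonneg _) (norm_nonneg _)).1 h5

theorem norm_K3_le (v : K3 H) (B : ℝ) (hB : 0 ≤ B) (h : ∀ p, ‖v p‖ ≤ B) : ‖v‖ ≤ 3 * B := by
  have h1 : ‖v‖ ^ 2 ≤ (3 * B) ^ 2 := by
    rw [PiLp.norm_sq_eq_of_L2]
    calc ∑ p, ‖v p‖ ^ 2 ≤ ∑ p : Fin 3 × Fin 3, B ^ 2 :=
          Finset.sum_le_sum fun p _ => pow_le_pow_left₀ (norm_nonneg _) (h p) 2
      _ = (3 * B) ^ 2 := by
          rw [Finset.sum_const, Finset.card_univ, Fintype.card_prod, Fintype.card_fin]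
          simp
          ring
  exact (sq_le_sq₀ (norm_nonneg _) (by positivity)).1 h1

theorem norm_cm_ms_le {M : VonNeumannAlgebra H} {ξ : H} {ρ : (H →L[ℂ] H) → (H →L[ℂ] H)}
    {c : (H →L[ℂ] H) → (H →L[ℂ] H) → H} {T T' : (H →L[ℂ] H) → (H →L[ℂ] H)} {γ δ ε : ℝ}
    (hδ : 0 ≤ δ) (h : CD M ξ ρ c T T' γ δ ε) {X : Mat H} (hX : IsU M X) :
    ‖cm c X (ms X)‖ ≤ 9 * δ := by
  have : ‖cm c X (ms X)‖ ≤ 3 * (3 * δ) := by
    refine norm_K3_le _ _ (by positivity) ?_
    rintro ⟨i, k⟩
    rw [cm_apply]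
    calc ‖∑ j, c (X i j) (ms X j k)‖ ≤ ∑ j : Fin 3, δ := by
          refine (norm_sum_le _ _).trans (Finset.sum_le_sum fun j _ => ?_)
          have h1 := h.bd (X i j) (hX.1 i j) (ms X j k) (star_mem (hX.1 k j))
          have h2 := isU_norm_le hX i j
          have h3 : ‖ms X j k‖ ≤ 1 := by
            rw [ms, norm_star]
            exact isU_norm_le hX k j
          refine h1.trans ?_
          calc δ * ‖X i j‖ * ‖ms X j k‖ ≤ δ * 1 * 1 := by gcongr
            _ = δ := by ring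
      _ = 3 * δ := by simp
  linarith

/-- the unitary matrices used in the polarisation -/
noncomputable def gg (V : Fin 3 → (H →L[ℂ] H)) (m n p : Fin 3) : Mat H :=
  fun i j => ww m n p i j • (star (V i) * V j)

theorem ms_gg (V : Fin 3 → (H →L[ℂ] H)) (m n p : Fin 3) :
    ms (gg V m n p) = fun i j => conj (ww m n p j i) • (star (V i) * V j) := by
  funext i j
  simp [ms, gg, star_smul, star_mul]

theorem gg_isU {M : VonNeumannAlgebra H} {V : Fin 3 → (H →L[ℂ] H)} (hV : ∀ i, V i ∈ M)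
    (hVu : ∀ i, V i ∈ unitary (H →L[ℂ] H)) (m n p : Fin 3) : IsU M (gg V m n p) := by
  refine ⟨fun i k => smul_mem' M _ (mul_mem (star_mem (hV i)) (hV k)), ?_, ?_⟩
  · funext i j
    have h1 : ∀ k, ms (gg V m n p) i k * gg V m n p k j =
        (conj (ww m n p k i) * ww m n p k j) • (star (V i) * V j) := by
      intro k
      rw [ms_gg, gg, smul_mul_smul_comm]
      congr 1
      rw [mul_assoc, ← mul_assoc (V k), (Unitary.mem_iff.1 (hVu k)).2, one_mul]
    rw [mm, Finset.sum_congr rfl fun k _ => h1 k, ← Finset.sum_smul, ww_orth1, m1]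
    split_ifs with hij
    · subst hij
      rw [one_smul, (Unitary.mem_iff.1 (hVu i)).1]
    · rw [zero_smul]
  · funext i j
    have h1 : ∀ k, gg V m n p i k * ms (gg V m n p) k j =
        (ww m n p i k * conj (ww m n p j k)) • (star (V i) * V j) := by
      intro k
      rw [ms_gg, gg, smul_mul_smul_comm]
      congr 1
      rw [mul_assoc, ← mul_assoc (V k), (Unitary.mem_iff.1 (hVu k)).2, one_mul]
    rw [mm, Finset.sum_congr rfl fun k _ => h1 k, ← Finset.sum_smul, ww_orth2, m1]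
    split_ifs with hij
    · subst hij
      rw [one_smul, (Unitary.mem_iff.1 (hVu i)).1]
    · rw [zero_smul]

theorem star' (h1 : S_MEAN) (h2 : S_FFL) : S_STAR := by
  obtain ⟨K, hK, h2⟩ := h2
  refine ⟨9 / 2 * K, by linarith, ?_⟩
  intro H _ _ _ M ξ ρ c T T' γ δ ε hstd hγ hδ hε hcd
  obtain ⟨I, s, t, E, hE, hI, hs, ht, hz⟩ := h1 H M ξ ρ hstd (fun X => cm c X (ms X)) (9 * δ)
    (fun X hX => norm_cm_ms_le hδ hcd hX)
  refine ⟨I, s, t, E, hE, hI, hs, ht, ?_⟩
  intro a ha b hb hua hub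
  set V : Fin 3 → (H →L[ℂ] H) := ![1, a, a * b] with hVdef
  have hV : ∀ i, V i ∈ M := by
    intro i
    fin_cases i
    · exact one_mem M
    · exact ha
    · exact mul_mem ha hb
  have hVu : ∀ i, V i ∈ unitary (H →L[ℂ] H) := by
    intro i
    fin_cases i
    · exact one_mem _
    · exact hua
    · exact mul_mem hua hub
  set Φ : Fin 3 → Fin 3 → Fin 3 → Fin 3 → H := fun i j k l =>
    (FF ρ c s t E (me i j (star (V i) * V j)) (me k l (star (V k) * V l))) (0, 2) with hΦ
  have hB : ∀ m n p : Fin 3, ‖∑ i, ∑ j, ∑ k, ∑ l,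
      (ww m n p i j * conj (ww m n p l k)) • Φ i j k l‖ ≤ K * ε := by
    intro m n p
    have hg := gg_isU hV hVu m n p
    have hz1 : (FF ρ c s t E (gg V m n p) (ms (gg V m n p))) (0, 2) = 0 := by
      have h3 := hz (gg V m n p) hg
      simp only [ms_mm, mm_assoc] at h3
      exact h3
    have hEnt : Ent M 1 (fun i j => star (V i) * V j) := by
      intro i k
      refine ⟨mul_mem (star_mem (hV i)) (hV k), ?_⟩
      exact norm_unitary_le (mul_mem (Unitary.star_mem (hVu i)) (hVu k))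
    have h3 := h2 H M ξ ρ c T T' γ δ ε hstd hγ hδ hε hcd I s t E hE hI hs ht
      (ww m n p) (fun k l => conj (ww m n p l k)) (fun i j => star (V i) * V j)
      (fun i j => star (V i) * V j) (norm_ww m n p)
      (fun i j => by rw [RCLike.norm_conj]; exact norm_ww m n p j i) hEnt hEnt
    have h4 := (PiLp.norm_apply_le _ ((0 : Fin 3), (2 : Fin 3))).trans h3
    have h5 : (fun i j => ww m n p i j • (star (V i) * V j)) = gg V m n p := rfl
    have h6 : (fun i j => conj (ww m n p j i) • (star (V i) * V j)) = ms (gg V m n p) :=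
      (ms_gg V m n p).symm
    rw [h5, h6] at h4
    rw [PiLp.sub_apply, hz1, zero_sub, norm_neg] at h4
    refine le_trans (le_of_eq ?_) h4
    congr 1
  have h7 := core Φ (K * ε) hB
  have e1 : star (V 0) * V 0 = 1 := (Unitary.mem_iff.1 (hVu 0)).1
  have e2 : star (V 0) * V 2 = a * b := by
    simp [hVdef]
  have e3 : star (V 0) * V 1 = a := by
    simp [hVdef]
  have e4 : star (V 1) * V 2 = b := by
    have := (Unitary.mem_iff.1 hua).1
    simp only [hVdef]
    change star a * (a * b) = b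
    rw [← mul_assoc, this, one_mul]
  have e5 : star (V 2) * V 2 = 1 := (Unitary.mem_iff.1 (hVu 2)).1
  simp only [hΦ, e1, e2, e3, e4, e5] at h7
  rw [PiLp.sub_apply, PiLp.add_apply, PiLp.neg_apply, PiLp.smul_apply]
  calc _ ≤ 9 / 2 * (K * ε) := h7
    _ = 9 / 2 * K * ε := by ring

end Pool.Agent.W253.KKS
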